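import Pool.Agent.Lib.H9F.Main

/-!
MP_b05697_mp: for every complex periodic potential `V ∈ L^∞(T³)` and every complex energy `lam` the Fermi variety
`F_lam(V)/Z³` is irreducible.
The definition `FermiSetL` is in `Pool/Agent/Lib/H9F/Stmt.lean`, the definitions `haar`, `EigEq`, `ex`, `IsAnSub`, `IrredAn`
are in `Pool/Agent/Lib/Fermi/Stmt.lean`. A plain-language proof is in `Pool/Agent/Lib/H9F/PROOF.md`.
-/

namespace Pool.Agent.Results.MP_b05697_mp.BoundedPotentials3D

open Fermi MeasureTheory

/-- The Fermi variety modulo periodicity is irreducible for all bounded measurable potentials in dimension three. -/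
theorem result (V : UnitAddTorus (Fin 3) → ℂ) (hV : MemLp V ⊤ (haar 3)) (lam : ℂ) :
    IrredAn (ex '' H9F.FermiSetL V lam) :=
  H9F.main hV lam

end Pool.Agent.Results.MP_b05697_mp.BoundedPotentials3D
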