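import Pool.Agent.Lib.Fermi.Final
import Pool.Agent.Lib.Fermi.Main
import Pool.Agent.Lib.Fermi.Smooth
import Pool.Agent.Lib.Fermi.CrossAll

/-!
MP_b05697_mp: for every `d ≥ 3`, every complex periodic potential `V ∈ C^∞(T^d)` and every complex energy `lam` the
Fermi variety `F_lam(V)/Z^d` is irreducible.
The definitions `FermiSet`, `CInf`, `ex`, `IsAnSub`, `IrredAn` are in `Pool/Agent/Lib/Fermi/Stmt.lean`.
-/

namespace Pool.Agent.Results.MP_b05697_mp.SmoothIrreducible

open Fermi

/-- The Fermi variety modulo periodicity is irreducible for all smooth potentials, `d ≥ 3`. -/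
theorem result (d : ℕ) (hd : 3 ≤ d) (V : C(UnitAddTorus (Fin d), ℂ)) (hV : CInf V) (lam : ℂ) :
    IrredAn (ex '' FermiSet V lam) := by
  have hS := smoothPot_of_cInf V hV
  have hR := rapid_of_smooth V hS
  rw [FermiSet_eq V hS lam]
  exact irredAn_of (FS_locHyp _ _ hR.summable) (FS_per _ _) (FS_nonempty hd hR)
    fun A B D => irred_of_cross hd (crossAll d) hR D

end Pool.Agent.Results.MP_b05697_mp.SmoothIrreducible
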